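import Mathlib
import Pool.Agent.H.MP_941e3e_gt.A

namespace Pool.Agent.Results.MP_941e3e_gt.Friedman

open Cardinal Pool.Agent.H.MP_941e3e_gt

theorem result (α : Type) [LinearOrder α] [WellFoundedLT α] [TopologicalSpace α] [OrderTopology α]
    (hc : ℵ₀ < Order.cof α) (hI : ∀ x : α, #(Set.Iic x) < Order.cof α) :
    T35Space (S α) ∧ CountablyCompactSpace (S α) ∧ (FP α → ¬ SymWO (S α)) :=
  ⟨inferInstance, S_cc hc, not_symWO hc hI⟩

end Pool.Agent.Results.MP_941e3e_gt.Friedman
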